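import Pool.Agent.helper20.SOL.Spec

/-! # Row sol:DL2 -/

set_option autoImplicit false

namespace Pool.Agent.SOL

open Pool.Agent.helper54.SOG Finset

open scoped BigOperators

theorem DL2_two (F : ℤ → ℤ → ℕ) (p₁ v₁ p₂ v₂ : ℤ) (hne : ¬ (p₁ = p₂ ∧ v₁ = v₂)) (h1 : 1 ≤ F p₁ v₁)
    (h2 : 1 ≤ F p₂ v₂) (p q : ℤ) :
    (if p₁ = p ∧ v₁ = q then 1 else 0) + (if p₂ = p ∧ v₂ = q then 1 else 0) ≤ F p q := by
  by_cases e1 : p₁ = p ∧ v₁ = q
  · by_cases e2 : p₂ = p ∧ v₂ = q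
    · exact absurd ⟨e1.1.trans e2.1.symm, e1.2.trans e2.2.symm⟩ hne
    · rw [if_pos e1, if_neg e2, ← e1.1, ← e1.2]; exact h1
  · by_cases e2 : p₂ = p ∧ v₂ = q
    · rw [if_neg e1, if_pos e2, ← e2.1, ← e2.2]; omega
    · rw [if_neg e1, if_neg e2]; exact Nat.zero_le _

theorem DL2_three (F : ℤ → ℤ → ℕ) (p₁ v₁ p₂ v₂ p₃ v₃ : ℤ) (h12 : ¬ (p₁ = p₂ ∧ v₁ = v₂))
    (h13 : ¬ (p₁ = p₃ ∧ v₁ = v₃)) (h23 : ¬ (p₂ = p₃ ∧ v₂ = v₃)) (h1 : 1 ≤ F p₁ v₁)
    (h2 : 1 ≤ F p₂ v₂) (h3 : 1 ≤ F p₃ v₃) (p q : ℤ) :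
    (if p₁ = p ∧ v₁ = q then 1 else 0) + (if p₂ = p ∧ v₂ = q then 1 else 0) +
      (if p₃ = p ∧ v₃ = q then 1 else 0) ≤ F p q := by
  by_cases e3 : p₃ = p ∧ v₃ = q
  · have e1 : ¬ (p₁ = p ∧ v₁ = q) := fun e1 => h13 ⟨e1.1.trans e3.1.symm, e1.2.trans e3.2.symm⟩
    have e2 : ¬ (p₂ = p ∧ v₂ = q) := fun e2 => h23 ⟨e2.1.trans e3.1.symm, e2.2.trans e3.2.symm⟩
    rw [if_neg e1, if_neg e2, if_pos e3, ← e3.1, ← e3.2]; omega
  · rw [if_neg e3, add_zero]
    exact DL2_two F p₁ v₁ p₂ v₂ h12 h1 h2 p q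

theorem DL2_three' (F : ℤ → ℤ → ℕ) (p₁ v₁ p₂ v₂ p₃ v₃ : ℤ) (h12 : ¬ (p₁ = p₂ ∧ v₁ = v₂))
    (h13 : p₁ = p₃ ∧ v₁ = v₃) (h1 : 2 ≤ F p₁ v₁) (h2 : 1 ≤ F p₂ v₂) (p q : ℤ) :
    (if p₁ = p ∧ v₁ = q then 1 else 0) + (if p₂ = p ∧ v₂ = q then 1 else 0) +
      (if p₃ = p ∧ v₃ = q then 1 else 0) ≤ F p q := by
  rw [← h13.1, ← h13.2]
  by_cases e1 : p₁ = p ∧ v₁ = q
  · have e2 : ¬ (p₂ = p ∧ v₂ = q) := fun e2 => h12 ⟨e1.1.trans e2.1.symm, e1.2.trans e2.2.symm⟩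
    rw [if_pos e1, if_neg e2, ← e1.1, ← e1.2]; omega
  · rw [if_neg e1, zero_add, add_zero]
    by_cases e2 : p₂ = p ∧ v₂ = q
    · rw [if_pos e2, ← e2.1, ← e2.2]; exact h2
    · rw [if_neg e2]; exact Nat.zero_le _

theorem DL2_sg (z : ℤ) : |sg z| = 1 := by
  unfold sg
  split_ifs <;> simp

theorem DL2_sg_mul (z : ℤ) : sg z * |z| = z := by
  unfold sg
  split_ifs with h
  · rw [abs_of_neg h]; ring
  · rw [abs_of_nonneg (not_lt.mp h)]; ring

theorem DL2_abs (z : ℤ) (h : |z| ≤ 2) : |z| = 0 ∨ |z| = 1 ∨ |z| = 2 := by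
  have := abs_nonneg z
  omega

theorem DL2_exists {n : ℕ} (x : Vec n) (c : ℤ) (h : 0 < cnt x c) : ∃ i, |x i| = c := by
  obtain ⟨i, hi⟩ := card_pos.mp h
  exact ⟨i, (mem_filter.mp hi).2⟩

theorem DL2 (hCNT : CNT_stmt) (hPAT : PAT_stmt) (hLX5 : LX5_stmt) : DL2_stmt := by
  intro n r hr hn M _ _ f hf
  obtain ⟨hc, -⟩ := hCNT
  obtain ⟨P3, P2, P1⟩ := hPAT
  have hS1 : ∀ y : Vec n, y ∈ TD n (r + 1 + (r - 1)) (1 + 1 + 0 + 2) → y ∈ TD n (2 * r) 4 := by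
    intro y hy
    rwa [show r + 1 + (r - 1) = 2 * r by omega] at hy
  have hS1' : ∀ y : Vec n, y ∈ TD n (r + 1 + (r - 1)) (0 + 1 + 1 + 2) → y ∈ TD n (2 * r) 4 := by
    intro y hy
    rwa [show r + 1 + (r - 1) = 2 * r by omega] at hy
  have hS2 : ∀ y : Vec n, y ∈ TD n (r - 1 + 1 + r) (2 + 0 + 1 + 1) → y ∈ TD n (2 * r) 4 := by
    intro y hy
    rwa [show r - 1 + 1 + r = 2 * r by omega] at hy
  have hS2' : ∀ y : Vec n, y ∈ TD n (r + 0 + r) (1 + 1 + 1 + 1) → y ∈ TD n (2 * r) 4 := by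
    intro y hy
    rwa [show r + 0 + r = 2 * r by omega] at hy
  refine hLX5 n (2 * r) 4 M f (fun z => if z = 2 then 1 else 2) hf ?_ ?_ ?_ ?_
  · -- h1
    rintro x ⟨hx, h2, h1⟩ i j hij hi hj
    have h0 := hc n x hx
    obtain ⟨y, y1, y2, y3, y4⟩ := P2 n x r r 0 1 1 1 1 (r - 1) 2 (n - 3 * r - 5) hx (by omega) (by omega)
      (by omega) i j 0 |x j| hij (by
        refine DL2_two _ _ _ _ _ ?_ ?_ ?_
        · rintro ⟨-, h⟩
          exact hj (abs_eq_zero.mp h.symm)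
        · rcases DL2_abs (x i) (hx i) with h | h | h
          · exact absurd (abs_eq_zero.mp h) hi
          · rw [h]; simp [pat]
          · rw [h]; simp [pat]; omega
        · rcases DL2_abs (x j) (hx j) with h | h | h
          · exact absurd (abs_eq_zero.mp h) hj
          · rw [h]; simp [pat]
          · rw [h]; simp [pat]; omega)
    refine ⟨y, hS1 y y1, hS1' _ y2, Or.inl ⟨by rw [y3, mul_zero], ?_⟩⟩
    rw [Pi.sub_apply, y4, DL2_sg_mul, sub_self]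
  · -- h2
    rintro x ⟨hx, h2, h1⟩ i a b hi hai hbi ha hb
    have h0 := hc n x hx
    have hab : a ≠ b := by
      rintro rfl
      exact hb ha
    rcases DL2_abs (x i) (hx i) with h | h | h
    · exact absurd (abs_eq_zero.mp h) hi
    · -- one
      have hv : (if |x i| = 2 then (1 : ℤ) else 2) = 2 := by rw [h]; norm_num
      rw [hv] at ha hb
      have hb' : |x b| = 0 ∨ |x b| = 1 := by
        rcases DL2_abs (x b) (hx b) with h' | h' | h'
        · exact Or.inl h'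
        · exact Or.inr h'
        · exact absurd h' hb
      obtain ⟨y, y1, y2, y3, y4, y5⟩ := P3 n x (r - 1) r 1 2 1 1 0 r 1 (n - 3 * r - 5) hx (by omega)
        (by omega) (by omega) i a b |x i| 1 1 hai.symm hbi.symm hab (by
          rw [h, ha]
          rcases hb' with hb' | hb'
          · rw [hb']
            exact DL2_three _ _ _ _ _ _ _ (by norm_num) (by norm_num) (by norm_num) (by simp [pat])
              (by simp [pat]) (by simp [pat])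
          · rw [hb']
            exact DL2_three' _ _ _ _ _ _ _ (by norm_num) ⟨rfl, rfl⟩ (by simp [pat]) (by simp [pat]))
      refine ⟨y, hS2 y y1, hS2' _ y2, ?_, ?_⟩
      · rw [Pi.sub_apply, y3, DL2_sg_mul, sub_self]
      · rw [y4, y5, abs_mul, abs_mul, DL2_sg, DL2_sg]
    · -- two
      have hv : (if |x i| = 2 then (1 : ℤ) else 2) = 1 := by rw [h]; norm_num
      rw [hv] at ha hb
      have hb' : |x b| = 0 ∨ |x b| = 2 := by
        rcases DL2_abs (x b) (hx b) with h' | h' | h'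
        · exact Or.inl h'
        · exact absurd h' hb
        · exact Or.inr h'
      rcases hb' with hb' | hb'
      · obtain ⟨y, y1, y2, y3, y4, y5⟩ := P3 n x r r 0 1 1 1 1 (r - 1) 2 (n - 3 * r - 5) hx (by omega)
          (by omega) (by omega) i a b |x i| 1 1 hai.symm hbi.symm hab (by
            rw [h, ha, hb']
            exact DL2_three _ _ _ _ _ _ _ (by norm_num) (by norm_num) (by norm_num)
              (by simp [pat]; omega) (by simp [pat]) (by simp [pat]))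
        refine ⟨y, hS1 y y1, hS1' _ y2, ?_, ?_⟩
        · rw [Pi.sub_apply, y3, DL2_sg_mul, sub_self]
        · rw [y4, y5, abs_mul, abs_mul, DL2_sg, DL2_sg]
      · obtain ⟨y, y1, y2, y3, y4, y5⟩ := P3 n x r r 0 1 1 1 1 (r - 1) 2 (n - 3 * r - 5) hx (by omega)
          (by omega) (by omega) i a b |x i| 0 0 hai.symm hbi.symm hab (by
            rw [h, ha, hb']
            exact DL2_three _ _ _ _ _ _ _ (by norm_num) (by norm_num) (by norm_num)
              (by simp [pat]; omega) (by simp [pat]) (by simp [pat]; omega))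
        refine ⟨y, hS1 y y1, hS1' _ y2, ?_, ?_⟩
        · rw [Pi.sub_apply, y3, DL2_sg_mul, sub_self]
        · rw [y4, y5, mul_zero, mul_zero]
  · -- h2'
    rintro x ⟨hx, h2, h1⟩ i a b hi hai hbi ha hb hab
    rcases DL2_abs (x i) (hx i) with h | h | h
    · exact absurd (abs_eq_zero.mp h) hi
    · have hv : (if |x i| = 2 then (1 : ℤ) else 2) = 2 := by rw [h]; norm_num
      rw [hv]
      obtain ⟨c, hc'⟩ := DL2_exists x 2 (by omega)
      refine ⟨c, ?_, hc'⟩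
      rintro rfl
      rw [h] at hc'
      norm_num at hc'
    · have hv : (if |x i| = 2 then (1 : ℤ) else 2) = 1 := by rw [h]; norm_num
      rw [hv]
      obtain ⟨c, hc'⟩ := DL2_exists x 1 (by omega)
      refine ⟨c, ?_, hc'⟩
      rintro rfl
      rw [h] at hc'
      norm_num at hc'
  · -- h3
    rintro i ⟨x, ⟨hx, h2, h1⟩, hxi⟩ -
    have h0 := hc n x hx
    obtain ⟨y, y1, y2, y3⟩ := P1 n x (r - 1) r 1 2 1 1 0 r 1 (n - 3 * r - 5) hx (by omega)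
        (by omega) (by omega) i 1 (by
          intro p q
          by_cases e : |x i| = p ∧ (1 : ℤ) = q
          · rw [if_pos e, ← e.1, ← e.2, hxi]; simp [pat]
          · rw [if_neg e]; exact Nat.zero_le _)
    refine ⟨x, ⟨hx, h2, h1⟩, y, hS2 y y1, hS2' _ y2, hxi, ?_⟩
    rw [y3, hxi]
    unfold sg
    norm_num

end Pool.Agent.SOL
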